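import Mathlib
import Pool.Agent.H62.Mul

/-!
# The upper bound for the number of elements of order three of the Tate-Shafarevich group
-/

set_option autoImplicit false
set_option linter.unusedSectionVars false

namespace Pool.Agent.H47.CB

open WeierstrassCurve NumberField IsDedekindDomain WithZero
open Pool.Agent.Q285.CE Pool.Agent.Q123.CE
open Pool.Agent.Q7.CE Pool.Agent.H62
open Pool.Agent.Q7.LK (IsPow)
open Pool.Agent.TH841.SH.D (Coch Pt act Gal IsCoc IsCob LocTriv cob)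
open Pool.Agent.TH841.NF.D (Sha IsShaCoc shaCoc)

/-- the number of elements killed by a product of two endomorphisms -/
theorem enc_sq {X : Type} [AddCommGroup X] (a b : X →+ X) (s : Set X) (ha : ∀ x, a x = 0 → x ∈ s)
    (hb : ∀ x, b x = 0 → x ∈ s) {c : ℕ∞} (hs : s.encard ≤ c) :
    Set.encard {x | b (a x) = 0} ≤ c * c := by
  classical
  set A : Set X := {x | b (a x) = 0} with hA
  let r : X → X := fun z => if h : ∃ x ∈ A, a x = z then h.choose else 0
  have hr : ∀ x ∈ A, r (a x) ∈ A ∧ a (r (a x)) = a x := by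
    intro x hx
    have h : ∃ y ∈ A, a y = a x := ⟨x, hx, rfl⟩
    have e : r (a x) = h.choose := dif_pos h
    rw [e]
    exact h.choose_spec
  let φ : X → X × X := fun x => (a x, x - r (a x))
  have hinj : Set.InjOn φ A := by
    intro x hx y hy hxy
    have h1 : a x = a y := congrArg Prod.fst hxy
    have h2 : x - r (a x) = y - r (a y) := congrArg Prod.snd hxy
    rw [h1] at h2
    exact sub_left_injective h2
  have hmap : Set.MapsTo φ A (s ×ˢ s) := by
    intro x hx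
    refine ⟨hb _ hx, ha _ ?_⟩
    rw [map_sub, (hr x hx).2, sub_self]
  calc A.encard ≤ (s ×ˢ s).encard := Set.encard_le_encard_of_injOn hmap hinj
    _ = s.encard * s.encard := Set.encard_prod
    _ ≤ c * c := mul_le_mul' hs hs

section one

variable {K : Type} [Field K] [NumberField K] {ω : K}

/-- the coboundary of a point with `θ R = T'` is not the coboundary of a point of order three -/
theorem not_cob3 (hI : ω ^ 2 + ω + 1 = 0) (hn : ¬ IsPow 3 ω)
    {R0 : Pt (ED (1 : K)) (AlgebraicClosure K)}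
    (hR0 : th hI (AlgebraicClosure K) R0 =
      act (ED (1 : K)) (Algebra.ofId K (AlgebraicClosure K)) (T' hI K)) :
    ¬ Cob3 (1 : K) (cbd (ED (1 : K)) R0) := by
  set A := AlgebraicClosure K
  let j := act (ED (1 : K)) (Algebra.ofId K A)
  have hj : Function.Injective j := act_inj _ _
  rintro ⟨R, hR3, hR⟩
  obtain ⟨Q, hQ⟩ := descent (ED (1 : K)) (R0 - R) (fun σ => by
    have h1 : act (ED (1 : K)) σ.toAlgHom R0 - R0 = act (ED (1 : K)) σ.toAlgHom R - R := hR σ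
    rw [map_sub]
    rw [sub_eq_sub_iff_add_eq_add] at h1 ⊢
    rw [h1]
    abel)
  -- `T' - θ Q` has a trivial class
  have h1 : j (T' hI K - th hI K Q) = th hI A R := by
    have h2 : j (th hI K Q) = th hI A (R0 - R) := by
      rw [← hQ]
      exact (endG_th hI).nat K A _ Q
    have h3 : th hI A R0 = j (T' hI K) := hR0
    rw [map_sub, h2, ← h3, map_sub]
    abel
  have h2 : th' hI A (th hI A R) = 0 := by rw [th'_th, hR3]
  have h3 : th' hI K (T' hI K - th hI K Q) = 0 := by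
    apply hj
    have h4 : j (th' hI K (T' hI K - th hI K Q)) = th' hI A (j (T' hI K - th hI K Q)) :=
      (endG_th' hI).nat K A _ _
    rw [h4, h1, h2, map_zero]
  have h4 : IsC (clP (1 : K) (T' hI K - th hI K Q)) := by
    rcases th'_ker hI K h3 with h5 | ⟨y, hy, h5⟩
    · rw [h5]
      exact IsC.one
    · rw [h5]
      have he := ((isD_base (1 : K) K).eqn _ _).1 hy.1
      have hone : algebraMap K K (1 : K) = 1 := map_one _
      rw [hone] at he
      have h6 : y * (y + 1) = 0 := by linear_combination he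
      show IsC (cy (algebraMap K K (1 : K)) y)
      rcases mul_eq_zero.1 h6 with h7 | h7
      · rw [h7, cy_zero, hone, inv_one]
        exact IsC.one
      · have h8 : y = -1 := by linear_combination h7
        rw [h8, cy_of (by norm_num)]
        exact ⟨-1, by norm_num, by norm_num⟩
  have h5 : IsC (clP (1 : K) (T' hI K)) := by
    have h6 := clP_add (D := (1 : K)) one_ne_zero K (T' hI K - th hI K Q) (th hI K Q)
    rw [sub_add_cancel] at h6
    have h7 := clP_theta (D := (1 : K)) one_ne_zero hI K Q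
    have h8 := ((h4.mul h7).div h6)
    have e : clP (1 : K) (T' hI K - th hI K Q) * clP (1 : K) (Q - imP one_ne_zero hI K Q) /
        (clP (1 : K) (T' hI K - th hI K Q) * clP (1 : K) (th hI K Q) / clP (1 : K) (T' hI K)) =
        clP (1 : K) (T' hI K) := by
      have g1 := clP_ne (D := (1 : K)) one_ne_zero (T' hI K - th hI K Q)
      have g2 := clP_ne (D := (1 : K)) one_ne_zero (th hI K Q)
      have g3 := clP_ne (D := (1 : K)) one_ne_zero (T' hI K)
      rw [← th_apply]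
      field_simp
    rwa [e] at h8
  rw [clP_T'] at h5
  obtain ⟨s, hs, h6⟩ := h5
  apply hn
  have hid : algebraMap K K ω = ω := rfl
  rw [hid] at h6
  refine ⟨s ^ 2, ?_⟩
  have h7 : ω ^ 3 = 1 := cubI hI
  calc ω = (ω ^ 2) ^ 2 := by linear_combination (-ω) * h7
    _ = (s ^ 3) ^ 2 := by rw [← h6]
    _ = (s ^ 2) ^ 3 := by ring

theorem tcoc_iff (hI : ω ^ 2 + ω + 1 = 0) {f : Coch (ED (1 : K))} :
    TCoc (1 : K) f ↔ IsShaCoc (ED (1 : K)) f ∧ ∀ σ, th hI (AlgebraicClosure K) (f σ) = 0 := by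
  constructor
  · rintro ⟨h1, h2⟩
    refine ⟨h1, fun σ => ?_⟩
    rcases h2 σ with h | ⟨y, h, h'⟩
    · rw [h, map_zero]
    · rw [h', th_T hI _ h]
  · rintro ⟨h1, h2⟩
    exact ⟨h1, fun σ => th_ker hI _ (h2 σ)⟩

theorem cob3_zsmul {f : Coch (ED (1 : K))} (h : Cob3 (1 : K) f) (m : ℤ) : Cob3 (1 : K) (m • f) := by
  obtain ⟨R, hR3, hR⟩ := h
  refine ⟨m • R, by rw [smul_comm, hR3, smul_zero], fun σ => ?_⟩
  show m • f σ = _
  rw [hR σ, map_zsmul, smul_sub]

/-- classes with values in the kernel of `1 - ω` -/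
def YY (K : Type) [Field K] [NumberField K] : Set (Sha (ED (1 : K))) :=
  {x | ∃ f : shaCoc (ED (1 : K)), TCoc (1 : K) f.1 ∧ (QuotientAddGroup.mk f : Sha (ED (1 : K))) = x}

theorem yy_bound (hI : ω ^ 2 + ω + 1 = 0) (hn : ¬ IsPow 3 ω) {M : ℕ}
    (hfew : Few (1 : K) (3 * M)) : (YY K).encard ≤ M := by
  classical
  by_contra hcon
  rw [not_le] at hcon
  have h1 : ((M + 1 : ℕ) : ℕ∞) ≤ (YY K).encard := by
    have := Order.add_one_le_of_lt hcon
    exact_mod_cast this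
  obtain ⟨t, ht, htc⟩ := Set.exists_subset_encard_eq h1
  have htf : t.Finite := Set.finite_of_encard_eq_coe htc
  have hcard : Nat.card t = M + 1 := by
    have : t.ncard = M + 1 := by
      unfold Set.ncard
      rw [htc]
      rfl
    exact this
  have : Finite t := htf
  let u : Fin (M + 1) ≃ t := (Finite.equivFinOfCardEq hcard).symm
  have hx : ∀ i, ∃ f : shaCoc (ED (1 : K)), TCoc (1 : K) f.1 ∧
      (QuotientAddGroup.mk f : Sha (ED (1 : K))) = (u i : Sha (ED (1 : K))) := fun i => ht (u i).2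
  choose F hF hFu using hx
  -- the torsion point
  set A := AlgebraicClosure K
  obtain ⟨R0, hR0⟩ := (endG_th hI).surj A inferInstance
    (act (ED (1 : K)) (Algebra.ofId K A) (T' hI K))
  have hR0' : th hI A R0 = act (ED (1 : K)) (Algebra.ofId K A) (T' hI K) := hR0
  set f0 : Coch (ED (1 : K)) := cbd (ED (1 : K)) R0 with hf0
  have hTf0 : TCoc (1 : K) f0 := by
    rw [tcoc_iff hI]
    refine ⟨sha_cbd R0, fun σ => ?_⟩
    show th hI A (act (ED (1 : K)) σ.toAlgHom R0 - R0) = 0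
    have h3 : act (ED (1 : K)) σ.toAlgHom (th hI A R0) = th hI A (act (ED (1 : K)) σ.toAlgHom R0) :=
      (endG_th hI).nat A A σ.toAlgHom R0
    rw [map_sub, ← h3, hR0']
    show act (ED (1 : K)) σ.toAlgHom (act (ED (1 : K)) (Algebra.ofId K (AlgebraicClosure K)) _) - _ = 0
    rw [act_fix]
    exact sub_self _
  have hval3 : ∀ σ, (3 : ℤ) • f0 σ = 0 := by
    intro σ
    have h3 : (3 : ℕ) • f0 σ = 0 := by
      rw [← th'_th hI A, ((tcoc_iff hI).1 hTf0).2 σ, map_zero]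
    rw [← h3, ← natCast_zsmul]
    rfl
  have hnc := not_cob3 hI hn hR0'
  -- the large family
  obtain ⟨e⟩ : Nonempty (Fin (3 * M + 1) ↪ Fin (M + 1) × Fin 3) := by
    apply Function.Embedding.nonempty_of_card_le
    rw [Fintype.card_prod, Fintype.card_fin, Fintype.card_fin, Fintype.card_fin]
    omega
  let G : Fin (3 * M + 1) → Coch (ED (1 : K)) := fun t =>
    (F (e t).1).1 + (((e t).2 : ℕ) : ℤ) • f0
  have hG : ∀ t, TCoc (1 : K) (G t) := by
    intro t
    rw [tcoc_iff hI]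
    have h2 := (tcoc_iff hI).1 (hF (e t).1)
    have h3 := (tcoc_iff hI).1 hTf0
    refine ⟨(shaCoc (ED (1 : K))).add_mem h2.1 ((shaCoc (ED (1 : K))).zsmul_mem h3.1 _), fun σ => ?_⟩
    show th hI A ((F (e t).1).1 σ + (((e t).2 : ℕ) : ℤ) • f0 σ) = 0
    rw [map_add, map_zsmul, h2.2 σ, h3.2 σ, smul_zero, add_zero]
  obtain ⟨t1, t2, hne, hc⟩ := hfew G hG
  have hne' : e t1 ≠ e t2 := fun h => hne (e.injective h)
  by_cases hi : (e t1).1 = (e t2).1
  · -- a multiple of `f0`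
    have hj : (e t1).2 ≠ (e t2).2 := fun h => hne' (Prod.ext hi h)
    have key : ∀ j j' : Fin 3, j ≠ j' → ∃ m l : ℤ, m * (((j : ℕ) : ℤ) - ((j' : ℕ) : ℤ)) = 1 + 3 * l := by
      intro j j' h
      fin_cases j <;> fin_cases j'
      · exact absurd rfl h
      · exact ⟨-1, 0, by norm_num⟩
      · exact ⟨1, -1, by norm_num⟩
      · exact ⟨1, 0, by norm_num⟩
      · exact absurd rfl h
      · exact ⟨-1, 0, by norm_num⟩
      · exact ⟨-1, -1, by norm_num⟩
      · exact ⟨1, 0, by norm_num⟩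
      · exact absurd rfl h
    obtain ⟨m, l, hml⟩ := key _ _ hj
    apply hnc
    have h4 := cob3_zsmul hc m
    have h5 : m • (G t1 - G t2) = f0 := by
      funext σ
      show m • (((F (e t1).1).1 σ + (((e t1).2 : ℕ) : ℤ) • f0 σ) -
        ((F (e t2).1).1 σ + (((e t2).2 : ℕ) : ℤ) • f0 σ)) = f0 σ
      rw [hi, add_sub_add_left_eq_sub, ← sub_smul, ← mul_smul, hml, add_smul, one_smul, mul_comm,
        mul_smul, hval3, smul_zero, add_zero]
    rwa [h5] at h4
  · -- equal classes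
    apply hi
    apply u.injective
    apply Subtype.ext
    rw [← hFu, ← hFu]
    have h6 : (F (e t1).1 - F (e t2).1).1 ∈ cob (ED (1 : K)) := by
      obtain ⟨R, -, hR⟩ := hc
      refine ⟨R - (((e t1).2 : ℕ) : ℤ) • R0 + (((e t2).2 : ℕ) : ℤ) • R0, fun σ => ?_⟩
      have h7 : ((F (e t1).1).1 σ + (((e t1).2 : ℕ) : ℤ) • (act (ED (1 : K)) σ.toAlgHom R0 - R0)) -
        ((F (e t2).1).1 σ + (((e t2).2 : ℕ) : ℤ) • (act (ED (1 : K)) σ.toAlgHom R0 - R0)) =
        act (ED (1 : K)) σ.toAlgHom R - R := hR σ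
      show (F (e t1).1).1 σ - (F (e t2).1).1 σ = _
      rw [map_add, map_sub, map_zsmul, map_zsmul]
      rw [sub_eq_iff_eq_add, ← eq_sub_iff_add_eq] at h7
      rw [h7, smul_sub, smul_sub]
      abel
    have h8 : (QuotientAddGroup.mk (F (e t1).1 - F (e t2).1) : Sha (ED (1 : K))) = 0 :=
      (QuotientAddGroup.eq_zero_iff (N := (cob (ED (1 : K))).addSubgroupOf (shaCoc (ED (1 : K)))) _).2 h6
    have h9 : (QuotientAddGroup.mk (F (e t1).1) : Sha (ED (1 : K))) -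
        (QuotientAddGroup.mk (F (e t2).1) : Sha (ED (1 : K))) = 0 := h8
    exact sub_eq_zero.1 h9

/-- an endomorphism of the curve on the locally trivial cocycles -/
noncomputable def endC {Θ : ∀ (L : Type) [Field L] [Algebra K L], Pt (ED (1 : K)) L →+ Pt (ED (1 : K)) L}
    (hΘ : EndG (ED (1 : K)) Θ) : shaCoc (ED (1 : K)) →+ shaCoc (ED (1 : K)) where
  toFun f := ⟨fun σ => Θ (AlgebraicClosure K) (f.1 σ), sha_theta hΘ f.2⟩
  map_zero' := Subtype.ext (funext fun _ => map_zero _)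
  map_add' f g := Subtype.ext (funext fun σ => map_add (Θ (AlgebraicClosure K)) (f.1 σ) (g.1 σ))

/-- an endomorphism of the curve on the Tate-Shafarevich group -/
noncomputable def endS {Θ : ∀ (L : Type) [Field L] [Algebra K L], Pt (ED (1 : K)) L →+ Pt (ED (1 : K)) L}
    (hΘ : EndG (ED (1 : K)) Θ) : Sha (ED (1 : K)) →+ Sha (ED (1 : K)) :=
  QuotientAddGroup.map _ _ (endC hΘ) (by
    intro f hf
    obtain ⟨R, hR⟩ := hf
    refine ⟨Θ (AlgebraicClosure K) R, fun σ => ?_⟩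
    have h1 : f.1 σ = act (ED (1 : K)) σ.toAlgHom R - R := hR σ
    show Θ (AlgebraicClosure K) (f.1 σ) = _
    rw [h1, map_sub, ← hΘ.nat])

theorem endS_ker {Θ : ∀ (L : Type) [Field L] [Algebra K L], Pt (ED (1 : K)) L →+ Pt (ED (1 : K)) L}
    (hΘ : EndG (ED (1 : K)) Θ) {x : Sha (ED (1 : K))} (h : endS hΘ x = 0) : x ∈ YY K := by
  obtain ⟨f, rfl⟩ := QuotientAddGroup.mk_surjective x
  have h1 : (endC hΘ f).1 ∈ cob (ED (1 : K)) :=
    (QuotientAddGroup.eq_zero_iff (N := (cob (ED (1 : K))).addSubgroupOf (shaCoc (ED (1 : K)))) _).1 h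
  obtain ⟨P, hP⟩ := h1
  obtain ⟨R, hR⟩ := hΘ.surj (AlgebraicClosure K) inferInstance P
  have hs : IsShaCoc (ED (1 : K)) (f - (⟨cbd (ED (1 : K)) R, sha_cbd R⟩ : shaCoc (ED (1 : K)))).1 :=
    (shaCoc (ED (1 : K))).sub_mem f.2 (sha_cbd R)
  refine ⟨f - ⟨cbd (ED (1 : K)) R, sha_cbd R⟩, ⟨hs, fun σ => ?_⟩, ?_⟩
  · apply hΘ.ker
    show Θ (AlgebraicClosure K) (f.1 σ - (act (ED (1 : K)) σ.toAlgHom R - R)) = 0
    have h1 : Θ (AlgebraicClosure K) (f.1 σ) = act (ED (1 : K)) σ.toAlgHom P - P := hP σ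
    rw [map_sub, map_sub, ← hΘ.nat, h1, hR, sub_self]
  · have h2 : (QuotientAddGroup.mk (⟨cbd (ED (1 : K)) R, sha_cbd R⟩ : shaCoc (ED (1 : K))) :
        Sha (ED (1 : K))) = 0 :=
      (QuotientAddGroup.eq_zero_iff (N := (cob (ED (1 : K))).addSubgroupOf (shaCoc (ED (1 : K)))) _).2
        ⟨R, fun σ => rfl⟩
    have h3 : (QuotientAddGroup.mk (f - (⟨cbd (ED (1 : K)) R, sha_cbd R⟩ : shaCoc (ED (1 : K)))) :
        Sha (ED (1 : K))) = QuotientAddGroup.mk f -
        QuotientAddGroup.mk (⟨cbd (ED (1 : K)) R, sha_cbd R⟩ : shaCoc (ED (1 : K))) := rfl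
    rw [h3, h2, sub_zero]

/-- **few classes give a small group** -/
theorem sha_le (hI : ω ^ 2 + ω + 1 = 0) (hn : ¬ IsPow 3 ω) {M : ℕ} (hfew : Few (1 : K) (3 * M)) :
    Set.encard {x : Sha (ED (1 : K)) | (3 : ℕ) • x = 0} ≤ (M : ℕ∞) * M := by
  have h1 := enc_sq (endS (endG_th hI)) (endS (endG_th' hI)) (YY K) (fun x => endS_ker _)
    (fun x => endS_ker _) (yy_bound hI hn hfew)
  have e : {x : Sha (ED (1 : K)) | endS (endG_th' hI) (endS (endG_th hI) x) = 0} =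
      {x : Sha (ED (1 : K)) | (3 : ℕ) • x = 0} := by
    ext x
    obtain ⟨f, rfl⟩ := QuotientAddGroup.mk_surjective x
    have e1 : endS (endG_th' hI) (endS (endG_th hI) (QuotientAddGroup.mk f : Sha (ED (1 : K)))) =
        (3 : ℕ) • (QuotientAddGroup.mk f : Sha (ED (1 : K))) := by
      have e2 : endC (endG_th' hI) (endC (endG_th hI) f) = (3 : ℕ) • f := by
        apply Subtype.ext
        funext σ
        exact th'_th hI (AlgebraicClosure K) (f.1 σ)
      have e3 : endS (endG_th' hI) (endS (endG_th hI) (QuotientAddGroup.mk f : Sha (ED (1 : K)))) =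
        QuotientAddGroup.mk (endC (endG_th' hI) (endC (endG_th hI) f)) := rfl
      rw [e3, e2]
      rfl
    show endS (endG_th' hI) (endS (endG_th hI) (QuotientAddGroup.mk f : Sha (ED (1 : K)))) = 0 ↔ _
    rw [e1]
    rfl
  rwa [e] at h1

end one

section two

variable {F K : Type} [Field F] [NumberField F] [IsCyclotomicExtension {3} ℚ F] [Field K]
  [NumberField K] [Algebra F K] [IsGalois F K] {ζ : F} {n : ℕ} {S : Finset (𝓞 F)}

/-- the normal form of a class -/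
theorem norm_form (T : Ms F K ζ n S)
    (hB1 : ∀ a : K, (∀ v : HeightOneSpectrum (𝓞 K), AE v 1 a) → ∃ (i : ℕ) (m : 𝓞 F → ℕ) (c : K),
      c ≠ 0 ∧ a = algebraMap F K ζ ^ i * algebraMap F K ((∏ p ∈ S, p ^ m p : 𝓞 F) : F) * c ^ 3)
    [DecidableEq (𝓞 F)] {p₀ : 𝓞 F} (hp : p₀ ∈ S) {e : 𝓞 F → ℕ} {β : K} (he : ¬ 3 ∣ e p₀)
    (hβ : β ^ 3 = algebraMap F K ((∏ p ∈ S, p ^ e p : 𝓞 F) : F)) {a : K}
    (ha : ∀ v : HeightOneSpectrum (𝓞 K), AE v 1 a) :
    ∃ (i : Fin 3) (d : ↥(S.erase p₀) → Fin 3) (c : K), c ≠ 0 ∧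
      a = algebraMap F K ζ ^ (i : ℕ) * algebraMap F K ((fS (S.erase p₀) d : 𝓞 F) : F) * c ^ 3 := by
  obtain ⟨i, m, c, hc, h⟩ := hB1 a ha
  have hω3 : (algebraMap F K ζ) ^ 3 = 1 := cubI T.quad
  have hq : ∀ q ∈ S, algebraMap F K (q : F) ≠ 0 := by
    intro q hq
    rw [Ne, map_eq_zero]
    exact fun h => (T.prime q hq).1.ne_zero (by exact_mod_cast h)
  have hprod : ∀ x : 𝓞 F → ℕ, algebraMap F K ((∏ p ∈ S, p ^ x p : 𝓞 F) : F) =
      ∏ p ∈ S, (algebraMap F K (p : F)) ^ x p := by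
    intro x
    have h1 : ((∏ p ∈ S, p ^ x p : 𝓞 F) : F) = ∏ p ∈ S, (p : F) ^ x p := by
      show algebraMap (𝓞 F) F (∏ p ∈ S, p ^ x p) = _
      rw [map_prod]
      exact Finset.prod_congr rfl fun p _ => map_pow _ _ _
    rw [h1, map_prod]
    exact Finset.prod_congr rfl fun p _ => map_pow _ _ _
  have hβ0 : β ≠ 0 := by
    rintro rfl
    rw [zero_pow three_ne_zero, hprod] at hβ
    exact Finset.prod_ne_zero_iff.2 (fun q hq' => pow_ne_zero _ (hq q hq')) hβ.symm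
  obtain ⟨t, ht⟩ : ∃ t : ℕ, 3 ∣ m p₀ + t * e p₀ := by
    have h1 : e p₀ % 3 = 1 ∨ e p₀ % 3 = 2 := by omega
    rcases h1 with h1 | h1
    · refine ⟨2 * m p₀, ?_⟩
      obtain ⟨b, hb⟩ : ∃ b, e p₀ = 3 * b + 1 := ⟨e p₀ / 3, by omega⟩
      rw [hb]
      exact ⟨m p₀ * (2 * b + 1), by ring⟩
    · refine ⟨m p₀, ?_⟩
      obtain ⟨b, hb⟩ : ∃ b, e p₀ = 3 * b + 2 := ⟨e p₀ / 3, by omega⟩
      rw [hb]
      exact ⟨m p₀ * (b + 1), by ring⟩
  let m' : 𝓞 F → ℕ := fun p => m p + t * e p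
  let d : ↥(S.erase p₀) → Fin 3 := fun p => ⟨m' p % 3, Nat.mod_lt _ (by norm_num)⟩
  let C : K := ∏ p ∈ S, (algebraMap F K (p : F)) ^ (m' p / 3)
  have hC0 : C ≠ 0 := Finset.prod_ne_zero_iff.2 fun q hq' => pow_ne_zero _ (hq q hq')
  have hC : algebraMap F K ((∏ p ∈ S, p ^ m' p : 𝓞 F) : F) =
      algebraMap F K ((fS (S.erase p₀) d : 𝓞 F) : F) * C ^ 3 := by
    have h1 : algebraMap F K ((fS (S.erase p₀) d : 𝓞 F) : F) =
        ∏ p ∈ S.erase p₀, (algebraMap F K (p : F)) ^ (m' p % 3) := by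
      rw [fS_coe]
      exact Finset.prod_coe_sort (S.erase p₀) (fun p => (algebraMap F K (p : F)) ^ (m' p % 3))
    have h2 : ∏ p ∈ S.erase p₀, (algebraMap F K (p : F)) ^ (m' p % 3) =
        ∏ p ∈ S, (algebraMap F K (p : F)) ^ (m' p % 3) := by
      apply Finset.prod_erase
      have : m' p₀ % 3 = 0 := Nat.mod_eq_zero_of_dvd ht
      rw [this, pow_zero]
    rw [hprod, h1, h2, ← Finset.prod_pow, ← Finset.prod_mul_distrib]
    refine Finset.prod_congr rfl fun p _ => ?_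
    rw [← pow_mul, ← pow_add]
    congr 1
    omega
  refine ⟨⟨i % 3, Nat.mod_lt _ (by norm_num)⟩, d, C * c / β ^ t, ?_, ?_⟩
  · exact div_ne_zero (mul_ne_zero hC0 hc) (pow_ne_zero _ hβ0)
  · have e1 : algebraMap F K ζ ^ i = algebraMap F K ζ ^ (i % 3) := by
      conv_lhs => rw [← Nat.div_add_mod i 3, pow_add, pow_mul, hω3, one_pow, one_mul]
    have e2 : algebraMap F K ((∏ p ∈ S, p ^ m' p : 𝓞 F) : F) =
        algebraMap F K ((∏ p ∈ S, p ^ m p : 𝓞 F) : F) * (β ^ t) ^ 3 := by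
      rw [← pow_mul, mul_comm t 3, pow_mul, hβ, hprod, hprod, hprod, ← Finset.prod_pow,
        ← Finset.prod_mul_distrib]
      refine Finset.prod_congr rfl fun p _ => ?_
      rw [← pow_mul, ← pow_add, mul_comm (e p) t]
    have e3 : algebraMap F K ((∏ p ∈ S, p ^ m p : 𝓞 F) : F) * (β ^ t) ^ 3 =
        algebraMap F K ((fS (S.erase p₀) d : 𝓞 F) : F) * C ^ 3 := by
      rw [← e2, hC]
    rw [h, e1]
    have h5 : (β ^ t) ^ 3 ≠ 0 := pow_ne_zero _ (pow_ne_zero _ hβ0)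
    show _ = algebraMap F K ζ ^ (i % 3) * _ * _
    rw [div_pow, mul_pow, mul_div_assoc', eq_div_iff h5]
    linear_combination (algebraMap F K ζ ^ (i % 3) * c ^ 3) * e3

/-- there are few classes -/
theorem few_of (T : Ms F K ζ n S)
    (hB1 : ∀ a : K, (∀ v : HeightOneSpectrum (𝓞 K), AE v 1 a) → ∃ (i : ℕ) (m : 𝓞 F → ℕ) (c : K),
      c ≠ 0 ∧ a = algebraMap F K ζ ^ i * algebraMap F K ((∏ p ∈ S, p ^ m p : 𝓞 F) : F) * c ^ 3)
    {e : 𝓞 F → ℕ} {β : K} (he : ∀ p ∈ S, ¬ 3 ∣ e p)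
    (hβ : β ^ 3 = algebraMap F K ((∏ p ∈ S, p ^ e p : 𝓞 F) : F)) {k : ℕ} (hk : S.card = k + 1) :
    Few (1 : K) (3 * 3 ^ k) := by
  classical
  intro f hf
  have hne : S.Nonempty := Finset.card_pos.1 (by omega)
  obtain ⟨p, hpS⟩ := hne
  obtain ⟨a, ha1, -, ha3⟩ := t_EKUM2 K (algebraMap F K ζ) 1 T.zetaK one_ne_zero _ f hf
  choose i d c hc h using fun j => norm_form T hB1 hpS (he p hpS) hβ (ha1 j)
  have hcard : Fintype.card (Fin 3 × (↥(S.erase p) → Fin 3)) = 3 * 3 ^ k := by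
    rw [Fintype.card_prod, Fintype.card_fun, Fintype.card_coe, Fintype.card_fin,
      Finset.card_erase_of_mem hpS, hk, Nat.add_sub_cancel]
  obtain ⟨x, y, hxy, hxy'⟩ := Fintype.exists_ne_map_eq_of_card_lt (fun j => (i j, d j))
    (by rw [hcard, Fintype.card_fin]; omega)
  refine ⟨x, y, hxy, ha3 x y 0 ?_⟩
  rw [pow_zero, mul_one]
  have h1 : i x = i y := congrArg Prod.fst hxy'
  have h2 : d x = d y := congrArg Prod.snd hxy'
  refine ⟨c x / c y, ?_⟩
  have hz0 : algebraMap F K ζ ≠ 0 := T.zetaK.ne_zero (by norm_num)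
  have hf0 : algebraMap F K ((fS (S.erase p) (d y) : 𝓞 F) : F) ≠ 0 := by
    rw [Ne, map_eq_zero]
    exact fun h => T.fS_ne (Finset.erase_subset _ _) (d y) (by exact_mod_cast h)
  have hcy := hc y
  rw [h x, h y, h1, h2]
  field_simp

/-- **the upper bound for the Tate-Shafarevich group** -/
theorem upper (T : Ms F K ζ n S)
    (hB1 : ∀ a : K, (∀ v : HeightOneSpectrum (𝓞 K), AE v 1 a) → ∃ (i : ℕ) (m : 𝓞 F → ℕ) (c : K),
      c ≠ 0 ∧ a = algebraMap F K ζ ^ i * algebraMap F K ((∏ p ∈ S, p ^ m p : 𝓞 F) : F) * c ^ 3)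
    {e : 𝓞 F → ℕ} {β : K} (he : ∀ p ∈ S, ¬ 3 ∣ e p)
    (hβ : β ^ 3 = algebraMap F K ((∏ p ∈ S, p ^ e p : 𝓞 F) : F)) {k : ℕ} (hk : S.card = k + 1) :
    Set.encard {x : Sha (ED (1 : K)) | (3 : ℕ) • x = 0} ≤ (9 : ℕ∞) ^ k := by
  classical
  have hne : S.Nonempty := Finset.card_pos.1 (by omega)
  obtain ⟨p, hpS⟩ := hne
  have hsub : S.erase p ⊆ S := Finset.erase_subset _ _
  have hne0 : ∀ d : ↥(S.erase p) → Fin 3, algebraMap F K ((fS (S.erase p) d : 𝓞 F) : F) ≠ 0 := by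
    intro d
    rw [Ne, map_eq_zero]
    exact fun h => T.fS_ne hsub d (by exact_mod_cast h)
  -- the root of unity is not a cube
  have hn : ¬ IsPow 3 (algebraMap F K ζ) := by
    rintro ⟨c, hc⟩
    have hc0 : c ≠ 0 := by
      rintro rfl
      rw [zero_pow three_ne_zero] at hc
      exact T.zetaK.ne_zero (by norm_num) hc
    have h1 := (Ms.indep T hpS (i := 1) (i' := 0) (d := fun _ => 0) (d' := fun _ => 0) (by
      refine ⟨c, hc0, ?_⟩
      have := hne0 (fun _ => 0)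
      rw [← hc]
      simp only [Fin.val_one, Fin.val_zero, pow_one, pow_zero, one_mul]
      field_simp)).1
    exact absurd h1 (by decide)
  have h1 := sha_le T.quad hn (few_of T hB1 he hβ hk)
  have e9 : (((3 ^ k : ℕ) : ℕ∞) * ((3 ^ k : ℕ) : ℕ∞)) = (9 : ℕ∞) ^ k := by
    have : 3 ^ k * 3 ^ k = 9 ^ k := by rw [← mul_pow]; norm_num
    rw [← Nat.cast_mul, this]
    push_cast
    rfl
  rwa [e9] at h1

end two

end Pool.Agent.H47.CB
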